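import Pool.Agent.Lib_MP_78a5c6.PFinal

/-!
# Solvable groups satisfy the bound of Q1 with the exact constant 4

For a finite group `G`, `MP78a5.Cod G` is the set of the codegrees `|G : ker χ| / χ(1)` of the
irreducible complex characters of `G`, and `MP78a5.sig G = σ(G)` is the largest number of prime
divisors of a codegree. `MP78a5.PSolvable p G`: every chief factor of `G` is a `p`-group or has
order prime to `p`.

* For every finite solvable group `G`: `|π(G)| ≤ 4 σ(G)` (Q1 for solvable groups).
* More generally `|π(H)| ≤ 4 σ(G)` for every solvable subgroup `H` of a finite group `G`.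
* Hence a finite group `G` is `p`-solvable for at most `4 σ(G)` prime divisors `p` of `|G|`.
-/

namespace Pool.Agent.Results.MP_78a5c6_al.SolvableSubgroups

open MP78a5

open Classical in
/-- Q1 with the constant 4 for finite solvable groups; for the solvable subgroups of an arbitrary
finite group; for the primes `p` for which a finite group is `p`-solvable. -/
theorem result :
    (∀ (G : Type) [Group G] [Finite G], Group.IsSolvable G →
      (Nat.card G).primeFactors.card ≤ 4 * sig G) ∧
    (∀ (G : Type) [Group G] [Finite G] (H : Subgroup G), Group.IsSolvable H →
      (Nat.card H).primeFactors.card ≤ 4 * sig G) ∧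
    (∀ (G : Type) [Group G] [Finite G],
      ((Nat.card G).primeFactors.filter (fun p => PSolvable p G)).card ≤ 4 * sig G) := by
  refine ⟨?_, ?_, ?_⟩
  · intro G _ _ hG
    have h := card_pSolvable_le G
    rwa [Finset.filter_true_of_mem] at h
    intro p hp
    exact pSolvable_of_isSolvable (Nat.prime_of_mem_primeFactors hp)
  · intro G _ _ H hH
    exact card_primeFactors_subgroup_le H
  · intro G _ _
    exact card_pSolvable_le G

end Pool.Agent.Results.MP_78a5c6_al.SolvableSubgroups
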